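import Pool.Agent.H11.T4.Stmts

/-!
# Project T4: elementary facts on coboundaries
-/

open Finset

namespace Pool.T4.C45

variable {n : ℕ} {R : Type} [CommRing R]

omit R in
theorem mem_simp {K : AbstractSimplicialComplex (Fin n)} {k : ℕ} {s : Fin (k + 1) → Fin n} :
    s ∈ simp K k ↔ StrictMono s ∧ univ.image s ∈ K.faces := by
  classical
  unfold simp
  rw [Finset.mem_filter]
  exact ⟨fun h => h.2, fun h => ⟨Finset.mem_univ _, h⟩⟩

theorem cobd_add {k : ℕ} (c d : (Fin (k + 1) → Fin n) → R) (s : Fin (k + 2) → Fin n) :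
    cobd (fun t => c t + d t) s = cobd c s + cobd d s := by
  simp only [cobd, mul_add, Finset.sum_add_distrib]

theorem cobd_sub {k : ℕ} (c d : (Fin (k + 1) → Fin n) → R) (s : Fin (k + 2) → Fin n) :
    cobd (fun t => c t - d t) s = cobd c s - cobd d s := by
  simp only [cobd, mul_sub, Finset.sum_sub_distrib]

theorem cobd_smul {k : ℕ} (a : R) (c : (Fin (k + 1) → Fin n) → R) (s : Fin (k + 2) → Fin n) :
    cobd (fun t => a * c t) s = a * cobd c s := by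
  simp only [cobd, Finset.mul_sum]
  exact Finset.sum_congr rfl fun i _ => by ring

theorem cobd_sum {k : ℕ} {ι : Type} (F : Finset ι) (c : ι → (Fin (k + 1) → Fin n) → R)
    (s : Fin (k + 2) → Fin n) :
    cobd (fun t => ∑ i ∈ F, c i t) s = ∑ i ∈ F, cobd (c i) s := by
  simp only [cobd, Finset.mul_sum]
  exact Finset.sum_comm

theorem comp2 (s : Fin 4 → Fin n) (i : Fin 4) (j : Fin 3) :
    (s ∘ i.succAbove) ∘ j.succAbove =
      ![s (i.succAbove (j.succAbove 0)), s (i.succAbove (j.succAbove 1))] := by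
  funext k
  fin_cases k <;> rfl

theorem cobd_cobd (b : (Fin 2 → Fin n) → R) (s : Fin 4 → Fin n) :
    cobd (k := 2) (cobd (k := 1) b) s = 0 := by
  have h1 : cobd (k := 2) (cobd (k := 1) b) s = ∑ i : Fin 4, (-1 : R) ^ (i : ℕ) *
      ∑ j : Fin 3, (-1 : R) ^ (j : ℕ) * b ((s ∘ i.succAbove) ∘ j.succAbove) := rfl
  obtain ⟨F, hF⟩ : ∃ F : Fin 4 → Fin 4 → R, F = fun a c => b ![s a, s c] := ⟨_, rfl⟩
  have h2 : ∀ (i : Fin 4) (j : Fin 3), b ((s ∘ i.succAbove) ∘ j.succAbove) =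
      F (i.succAbove (j.succAbove 0)) (i.succAbove (j.succAbove 1)) := by
    intro i j
    rw [comp2, hF]
  rw [h1]
  simp only [h2, Fin.sum_univ_four, Fin.sum_univ_three]
  change (-1 : R) ^ 0 * ((-1 : R) ^ 0 * F 2 3 + (-1 : R) ^ 1 * F 1 3 + (-1 : R) ^ 2 * F 1 2) +
    (-1 : R) ^ 1 * ((-1 : R) ^ 0 * F 2 3 + (-1 : R) ^ 1 * F 0 3 + (-1 : R) ^ 2 * F 0 2) +
    (-1 : R) ^ 2 * ((-1 : R) ^ 0 * F 1 3 + (-1 : R) ^ 1 * F 0 3 + (-1 : R) ^ 2 * F 0 1) +
    (-1 : R) ^ 3 * ((-1 : R) ^ 0 * F 1 2 + (-1 : R) ^ 1 * F 0 2 + (-1 : R) ^ 2 * F 0 1) = 0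
  ring

end Pool.T4.C45
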