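import Pool.Agent.H45.T4.Cob

/-!
# Project T4: module BPM
-/

open Finset

namespace Pool.T4

namespace BPM45

open C45

/-- the linear algebra -/
theorem abs {V : Type*} [AddCommGroup V] [Module ℝ V] [FiniteDimensional ℝ V]
    (B : V →ₗ[ℝ] V →ₗ[ℝ] ℝ) (Z N : Submodule ℝ V)
    (hN : ∀ z ∈ Z, ∀ w ∈ Z, w - z ∈ N → B w w = B z z) {r s k : ℕ} (hk : k = r + s)
    (p : Fin r → V) (m : Fin s → V) (hp : ∀ i, p i ∈ Z) (hm : ∀ i, m i ∈ Z)
    (hpp : ∀ i j, i ≠ j → B (p i) (p j) = 0) (hmm : ∀ i j, i ≠ j → B (m i) (m j) = 0)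
    (hp0 : ∀ i, 0 < B (p i) (p i)) (hm0 : ∀ i, B (m i) (m i) < 0)
    (hy : ∃ y : Fin k → V, ∀ z ∈ Z, ∃ c : Fin k → ℝ, z - ∑ i, c i • y i ∈ N) :
    IsGreatest {d | ∃ W : Submodule ℝ V, Module.finrank ℝ W = d ∧ (∀ z ∈ W, z ∈ Z) ∧
      ∀ z ∈ W, z ≠ 0 → 0 < B z z} r := by
  have hsum : ∀ {q : ℕ} (u : Fin q → V), (∀ i j, i ≠ j → B (u i) (u j) = 0) →
      ∀ c : Fin q → ℝ, B (∑ i, c i • u i) (∑ i, c i • u i) = ∑ i, c i ^ 2 * B (u i) (u i) := by
    intro q u hu c
    rw [map_sum]
    refine Finset.sum_congr rfl fun i _ => ?_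
    rw [map_smul, map_sum, LinearMap.sum_apply, Finset.sum_eq_single i]
    · rw [map_smul, LinearMap.smul_apply, smul_eq_mul, smul_eq_mul]
      ring
    · intro j _ hj
      rw [map_smul, LinearMap.smul_apply, hu j i hj, smul_zero]
    · intro h
      exact absurd (Finset.mem_univ i) h
  constructor
  · refine ⟨Submodule.span ℝ (Set.range p), ?_, ?_, ?_⟩
    · have hli : LinearIndependent ℝ p := by
        rw [Fintype.linearIndependent_iff]
        intro c hc i
        have h := hsum p hpp c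
        rw [hc] at h
        simp only [map_zero] at h
        have h1 := (Finset.sum_eq_zero_iff_of_nonneg
          (fun j _ => mul_nonneg (sq_nonneg (c j)) (hp0 j).le)).1 h.symm i (Finset.mem_univ i)
        rcases mul_eq_zero.1 h1 with h2 | h2
        · exact pow_eq_zero_iff two_ne_zero |>.1 h2
        · exact absurd h2 (hp0 i).ne'
      rw [finrank_span_eq_card hli, Fintype.card_fin]
    · intro z hz
      have : Submodule.span ℝ (Set.range p) ≤ Z := by
        rw [Submodule.span_le]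
        rintro _ ⟨i, rfl⟩
        exact hp i
      exact this hz
    · intro z hz hz0
      obtain ⟨c, rfl⟩ := (Submodule.mem_span_range_iff_exists_fun ℝ).1 hz
      rw [hsum p hpp c]
      obtain ⟨i, hi⟩ : ∃ i, c i ≠ 0 := by
        by_contra h
        push Not at h
        apply hz0
        exact Finset.sum_eq_zero fun i _ => by rw [h i, zero_smul]
      refine Finset.sum_pos' (fun j _ => mul_nonneg (sq_nonneg (c j)) (hp0 j).le)
        ⟨i, Finset.mem_univ i, mul_pos (by positivity) (hp0 i)⟩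
  · rintro d ⟨W, rfl, hWZ, hW⟩
    obtain ⟨y, hy⟩ := hy
    let Φ : (W × (Fin s → ℝ)) →ₗ[ℝ] (V ⧸ N) :=
      N.mkQ.comp ((W.subtype.comp (LinearMap.fst ℝ W (Fin s → ℝ))) -
        (Fintype.linearCombination ℝ m).comp (LinearMap.snd ℝ W (Fin s → ℝ)))
    have hΦ : ∀ (w : W) (d : Fin s → ℝ), Φ (w, d) = N.mkQ ((w : V) - ∑ i, d i • m i) := by
      intro w d
      rfl
    have hinj : Function.Injective Φ := by
      rw [injective_iff_map_eq_zero]
      rintro ⟨w, d⟩ h
      rw [hΦ, Submodule.mkQ_apply, Submodule.Quotient.mk_eq_zero] at h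
      have hmZ : ∑ i, d i • m i ∈ Z := Submodule.sum_mem _ fun i _ => Z.smul_mem _ (hm i)
      have h1 := hN _ hmZ _ (hWZ w w.2) h
      rw [hsum m hmm d] at h1
      have h2 : B (w : V) (w : V) ≤ 0 := by
        rw [h1]
        exact Finset.sum_nonpos fun j _ => mul_nonpos_of_nonneg_of_nonpos (sq_nonneg _) (hm0 j).le
      have hw0 : (w : V) = 0 := by
        by_contra hne
        exact absurd (hW w w.2 hne) (not_lt.2 h2)
      rw [hw0] at h1
      simp only [map_zero] at h1
      have h3 : ∀ i, d i = 0 := by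
        intro i
        have h4 := (Finset.sum_eq_zero_iff_of_nonpos
          (fun j _ => mul_nonpos_of_nonneg_of_nonpos (sq_nonneg (d j)) (hm0 j).le)).1 h1.symm i
          (Finset.mem_univ i)
        rcases mul_eq_zero.1 h4 with h5 | h5
        · exact pow_eq_zero_iff two_ne_zero |>.1 h5
        · exact absurd h5 (hm0 i).ne
      ext
      · exact hw0
      · exact h3 _
    have hrange : LinearMap.range Φ ≤ Submodule.span ℝ (Set.range fun i => N.mkQ (y i)) := by
      rintro _ ⟨⟨w, d⟩, rfl⟩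
      rw [hΦ]
      have hz : (w : V) - ∑ i, d i • m i ∈ Z :=
        Z.sub_mem (hWZ w w.2) (Submodule.sum_mem _ fun i _ => Z.smul_mem _ (hm i))
      obtain ⟨c, hc⟩ := hy _ hz
      rw [Submodule.mem_span_range_iff_exists_fun]
      refine ⟨c, ?_⟩
      rw [← Submodule.Quotient.mk_eq_zero, ← Submodule.mkQ_apply, map_sub, sub_eq_zero] at hc
      rw [hc, map_sum]
      exact Finset.sum_congr rfl fun i _ => (map_smul _ _ _).symm
    have h1 : Module.finrank ℝ (W × (Fin s → ℝ)) = Module.finrank ℝ (LinearMap.range Φ) :=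
      (LinearMap.finrank_range_of_inj hinj).symm
    have h2 : Module.finrank ℝ (LinearMap.range Φ) ≤ k := by
      refine (Submodule.finrank_mono hrange).trans ?_
      have := finrank_range_le_card (R := ℝ) (fun i => N.mkQ (y i))
      rw [Fintype.card_fin] at this
      exact this
    rw [Module.finrank_prod, Module.finrank_fin_fun] at h1
    omega

variable {n : ℕ}

/-- the cup product form on 2-cochains -/
noncomputable def BF (K : AbstractSimplicialComplex (Fin n)) (o : (Fin 5 → Fin n) → ℤ) :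
    ((Fin 3 → Fin n) → ℝ) →ₗ[ℝ] ((Fin 3 → Fin n) → ℝ) →ₗ[ℝ] ℝ :=
  LinearMap.mk₂ ℝ (fun u v => evalOn K o (cup (k := 2) (l := 2) u v))
    (fun u u' v => by
      simp only [evalOn, cup, Pi.add_apply, add_mul, mul_add, Finset.sum_add_distrib])
    (fun a u v => by
      simp only [evalOn, cup, Pi.smul_apply, smul_eq_mul, Finset.mul_sum]
      exact Finset.sum_congr rfl fun i _ => by ring)
    (fun u v v' => by
      simp only [evalOn, cup, Pi.add_apply, mul_add, Finset.sum_add_distrib])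
    (fun a u v => by
      simp only [evalOn, cup, Pi.smul_apply, smul_eq_mul, Finset.mul_sum]
      exact Finset.sum_congr rfl fun i _ => by ring)

theorem BF_apply (K : AbstractSimplicialComplex (Fin n)) (o : (Fin 5 → Fin n) → ℤ)
    (u v : (Fin 3 → Fin n) → ℝ) : BF K o u v = evalOn K o (cup (k := 2) (l := 2) u v) := rfl

/-- cocycles -/
def ZZ (K : AbstractSimplicialComplex (Fin n)) : Submodule ℝ ((Fin 3 → Fin n) → ℝ) where
  carrier := {z | IsCocycle (k := 2) K z}
  add_mem' := by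
    intro a b ha hb s hs
    have := cobd_add (k := 2) a b s
    rw [ha s hs, hb s hs, add_zero] at this
    exact this
  zero_mem' := by
    intro s _
    simp [cobd]
  smul_mem' := by
    intro c a ha s hs
    have := cobd_smul (k := 2) c a s
    rw [ha s hs, mul_zero] at this
    exact this

/-- cochains which agree with a coboundary on all triangles -/
def NN (K : AbstractSimplicialComplex (Fin n)) : Submodule ℝ ((Fin 3 → Fin n) → ℝ) where
  carrier := {z | ∃ b : (Fin 2 → Fin n) → ℝ, ∀ t ∈ simp K 2, z t = cobd (k := 1) b t}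
  add_mem' := by
    rintro a b ⟨u, hu⟩ ⟨v, hv⟩
    refine ⟨fun t => u t + v t, fun t ht => ?_⟩
    rw [cobd_add, ← hu t ht, ← hv t ht]
    rfl
  zero_mem' := ⟨0, fun t _ => by simp [cobd]⟩
  smul_mem' := by
    rintro c a ⟨u, hu⟩
    refine ⟨fun t => c * u t, fun t ht => ?_⟩
    rw [cobd_smul, ← hu t ht]
    rfl

theorem front_mem {K : AbstractSimplicialComplex (Fin n)} {s : Fin 5 → Fin n}
    (hs : s ∈ simp K 4) : (fun i : Fin 3 => s ⟨i, by omega⟩) ∈ simp K 2 := by
  classical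
  rw [mem_simp] at hs ⊢
  refine ⟨fun i j h => hs.1 (by
    rw [Fin.lt_def] at h ⊢
    exact h), (K.isRelLowerSet_faces hs.2).2 ?_ ?_⟩
  · intro v hv
    rw [Finset.mem_image] at hv ⊢
    obtain ⟨i, -, rfl⟩ := hv
    exact ⟨_, Finset.mem_univ _, rfl⟩
  · exact ⟨_, Finset.mem_image_of_mem _ (Finset.mem_univ 0)⟩

theorem back_mem {K : AbstractSimplicialComplex (Fin n)} {s : Fin 5 → Fin n}
    (hs : s ∈ simp K 4) : (fun j : Fin 3 => s ⟨2 + j, by omega⟩) ∈ simp K 2 := by
  classical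
  rw [mem_simp] at hs ⊢
  refine ⟨fun i j h => hs.1 (by
    rw [Fin.lt_def] at h ⊢
    simp only
    omega), (K.isRelLowerSet_faces hs.2).2 ?_ ?_⟩
  · intro v hv
    rw [Finset.mem_image] at hv ⊢
    obtain ⟨i, -, rfl⟩ := hv
    exact ⟨_, Finset.mem_univ _, rfl⟩
  · exact ⟨_, Finset.mem_image_of_mem _ (Finset.mem_univ 0)⟩

theorem BF_congr {K : AbstractSimplicialComplex (Fin n)} {o : (Fin 5 → Fin n) → ℤ}
    {u v u' v' : (Fin 3 → Fin n) → ℝ} (hu : ∀ t ∈ simp K 2, u t = u' t)
    (hv : ∀ t ∈ simp K 2, v t = v' t) : BF K o u v = BF K o u' v' := by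
  rw [BF_apply, BF_apply, evalOn, evalOn]
  refine Finset.sum_congr rfl fun s hs => ?_
  have h1 := hu _ (front_mem hs)
  have h2 := hv _ (back_mem hs)
  simp only [cup]
  rw [h1, h2]

theorem cob_mem (K : AbstractSimplicialComplex (Fin n)) (b : (Fin 2 → Fin n) → ℝ) :
    cobd (k := 1) b ∈ ZZ K := fun s _ => cobd_cobd b s

theorem invariant (hS : STKStmt) {K : AbstractSimplicialComplex (Fin n)}
    {o : (Fin 5 → Fin n) → ℤ} (ho : IsFundCycle K o) :
    ∀ z ∈ ZZ K, ∀ w ∈ ZZ K, w - z ∈ NN K → BF K o w w = BF K o z z := by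
  rintro z hz w hw ⟨b, hb⟩
  obtain ⟨c, hc⟩ : ∃ c : (Fin 3 → Fin n) → ℝ, c = cobd (k := 1) b := ⟨_, rfl⟩
  have hcz : c ∈ ZZ K := by rw [hc]; exact cob_mem K b
  have h1 : ∀ t ∈ simp K 2, w t = (z + c) t := by
    intro t ht
    have := hb t ht
    rw [Pi.sub_apply] at this
    rw [Pi.add_apply, hc, ← this]
    ring
  have h2 : ∀ u ∈ ZZ K, BF K o c u = 0 := by
    intro u hu
    rw [BF_apply, hc]
    exact (hS n K o ho u b hu).1
  have h3 : ∀ u ∈ ZZ K, BF K o u c = 0 := by
    intro u hu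
    rw [BF_apply, hc]
    exact (hS n K o ho u b hu).2
  rw [BF_congr h1 h1, map_add (BF K o), LinearMap.add_apply, map_add,
    h2 _ ((ZZ K).add_mem hz hcz), h3 z hz]
  ring

end BPM45

open BPM45 C45 in
theorem bpm (hS : STKStmt) : BPMStmt := by
  intro n K o ho r s p m hp hm hpp hmm hp0 hm0 hy
  have hinv := invariant hS ho
  have hy' : ∃ y : Fin (r + s) → (Fin 3 → Fin n) → ℝ, ∀ z ∈ ZZ K, ∃ c : Fin (r + s) → ℝ,
      z - ∑ i, c i • y i ∈ NN K := by
    obtain ⟨y, hy⟩ := hy
    refine ⟨y, fun z hz => ?_⟩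
    obtain ⟨c, b, hcb⟩ := hy z hz
    refine ⟨c, b, fun t ht => ?_⟩
    rw [Pi.sub_apply, hcb t ht, Finset.sum_apply]
    simp only [Pi.smul_apply, smul_eq_mul]
    ring
  have h1 := abs (BF K o) (ZZ K) (NN K) hinv rfl p m hp hm hpp hmm hp0 hm0 hy'
  have h2 := abs (-BF K o) (ZZ K) (NN K)
    (fun z hz w hw h => by
      rw [LinearMap.neg_apply, LinearMap.neg_apply, LinearMap.neg_apply, LinearMap.neg_apply,
        hinv z hz w hw h])
    (add_comm r s) m p hm hp
    (fun i j h => by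
      rw [LinearMap.neg_apply, LinearMap.neg_apply, BF_apply, hmm i j h, neg_zero])
    (fun i j h => by
      rw [LinearMap.neg_apply, LinearMap.neg_apply, BF_apply, hpp i j h, neg_zero])
    (fun i => by
      rw [LinearMap.neg_apply, LinearMap.neg_apply, BF_apply]
      exact neg_pos.2 (hm0 i))
    (fun i => by
      rw [LinearMap.neg_apply, LinearMap.neg_apply, BF_apply]
      exact neg_lt_zero.2 (hp0 i)) hy'
  refine ⟨h1, ?_⟩
  unfold IsBminus
  have he : {d | ∃ W : Submodule ℝ ((Fin 3 → Fin n) → ℝ), Module.finrank ℝ W = d ∧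
      (∀ z ∈ W, IsCocycle (k := 2) K z) ∧ ∀ z ∈ W, z ≠ 0 → qform K o z < 0} =
      {d | ∃ W : Submodule ℝ ((Fin 3 → Fin n) → ℝ), Module.finrank ℝ W = d ∧
      (∀ z ∈ W, z ∈ ZZ K) ∧ ∀ z ∈ W, z ≠ 0 → 0 < (-BF K o) z z} := by
    ext d
    simp only [Set.mem_ofPred_eq]
    refine exists_congr fun W => and_congr Iff.rfl (and_congr Iff.rfl ?_)
    refine forall_congr' fun z => forall_congr' fun _ => forall_congr' fun _ => ?_
    rw [LinearMap.neg_apply, LinearMap.neg_apply, BF_apply, neg_pos]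
    rfl
  rw [he]
  exact h2

end Pool.T4
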