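import Pool.Agent.H45.T4.Cob

/-!
# Project T4: module SPN
-/

open Finset

namespace Pool.T4

namespace SPN45

open C45

variable {n : ℕ}

/-- incidence number of an edge and a triangle -/
noncomputable def inc (e : Fin 2 → Fin n) (t : Fin 3 → Fin n) : ℝ :=
  ∑ j : Fin 3, if t ∘ j.succAbove = e then (-1 : ℝ) ^ (j : ℕ) else 0

theorem cobd_update (b : (Fin 2 → Fin n) → ℝ) (e : Fin 2 → Fin n) (v : ℝ) (t : Fin 3 → Fin n) :
    cobd (k := 1) (Function.update b e (b e + v)) t = cobd (k := 1) b t + v * inc e t := by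
  have h1 : ∀ c : (Fin 2 → Fin n) → ℝ, cobd (k := 1) c t =
      ∑ j : Fin 3, (-1 : ℝ) ^ (j : ℕ) * c (t ∘ j.succAbove) := fun _ => rfl
  rw [h1, h1, inc, Finset.mul_sum, ← Finset.sum_add_distrib]
  refine Finset.sum_congr rfl fun j _ => ?_
  by_cases h : t ∘ j.succAbove = e
  · rw [if_pos h, h, Function.update_self]
    ring
  · rw [if_neg h, Function.update_of_ne h]
    ring

theorem inc_zero {e : Fin 2 → Fin n} {t : Fin 3 → Fin n}
    (h : ∀ j : Fin 3, t ∘ j.succAbove ≠ e) : inc e t = 0 := by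
  unfold inc
  exact Finset.sum_eq_zero fun j _ => if_neg (h j)

theorem inc_ne {e : Fin 2 → Fin n} {t : Fin 3 → Fin n}
    (h : ∃! j : Fin 3, t ∘ j.succAbove = e) : inc e t ≠ 0 := by
  obtain ⟨j, hj, hu⟩ := h
  unfold inc
  rw [Finset.sum_eq_single j]
  · rw [if_pos hj]
    exact pow_ne_zero _ (by norm_num)
  · intro i _ hi
    exact if_neg fun h => hi (hu i h)
  · intro h
    exact absurd (Finset.mem_univ j) h

/-- step 1: a 1-cochain with prescribed coboundary on the triangles of P₁ -/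
theorem step1 (z : (Fin 3 → Fin n) → ℝ) (P : List ((Fin 2 → Fin n) × (Fin 3 → Fin n)))
    (h4 : ∀ a ∈ P, ∃! j : Fin 3, a.2 ∘ j.succAbove = a.1)
    (h5 : P.Pairwise (fun a b => ∀ j : Fin 3, a.2 ∘ j.succAbove ≠ b.1)) :
    ∃ b : (Fin 2 → Fin n) → ℝ, ∀ a ∈ P, cobd (k := 1) b a.2 = z a.2 := by
  induction P using List.reverseRecOn with
  | nil => exact ⟨0, by simp⟩
  | append_singleton L a ih =>
    rw [List.pairwise_append] at h5
    obtain ⟨b, hb⟩ := ih (fun c hc => h4 c (by simp [hc])) h5.1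
    have ha := inc_ne (h4 a (by simp))
    refine ⟨Function.update b a.1 (b a.1 + (z a.2 - cobd (k := 1) b a.2) / inc a.1 a.2), ?_⟩
    intro c hc
    rw [cobd_update]
    rw [List.mem_append, List.mem_singleton] at hc
    rcases hc with hc | rfl
    · rw [inc_zero (h5.2.2 c hc a (by simp)), mul_zero, add_zero]
      exact hb c hc
    · rw [div_mul_cancel₀ _ ha]
      ring

theorem succAbove_comp_inj {τ : Fin 4 → Fin n} (hτ : Function.Injective τ) {i j : Fin 4}
    (h : τ ∘ i.succAbove = τ ∘ j.succAbove) : i = j := by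
  apply Fin.succAbove_left_injective
  funext k
  exact hτ (congrFun h k)

end SPN45

open SPN45 C45 in
theorem spn : SPNStmt := by
  intro n K N y T P₁ P₂ h1 h2 h3 h4 h5 h6 h7 h8 z hz
  obtain ⟨b, hb⟩ := step1 z P₁ (fun a ha => (h4 a ha).2) h5
  refine ⟨fun i => z (T i) - cobd (k := 1) b (T i), b, ?_⟩
  obtain ⟨c, hc⟩ : ∃ c : Fin N → ℝ, c = fun i => z (T i) - cobd (k := 1) b (T i) := ⟨_, rfl⟩
  rw [← hc]
  obtain ⟨w, hw⟩ : ∃ w : (Fin 3 → Fin n) → ℝ,
      w = fun t => z t - ∑ i, c i * y i t - cobd (k := 1) b t := ⟨_, rfl⟩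
  have hwT : ∀ i, w (T i) = 0 := by
    intro i
    rw [hw]
    simp only
    have : ∑ j, c j * y j (T i) = c i := by
      simp only [h2]
      simp
    rw [this, hc]
    ring
  have hwP : ∀ a ∈ P₁, w a.2 = 0 := by
    intro a ha
    rw [hw]
    simp only
    have : ∑ j, c j * y j a.2 = 0 :=
      Finset.sum_eq_zero fun j _ => by rw [h3 j a ha, mul_zero]
    rw [this, hb a ha]
    ring
  have hwc : IsCocycle (k := 2) K w := by
    intro s hs
    rw [hw, cobd_sub, cobd_sub, cobd_cobd, cobd_sum, hz s hs]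
    have : ∑ i, cobd (k := 2) (fun t => c i * y i t) s = 0 :=
      Finset.sum_eq_zero fun i _ => by rw [cobd_smul, h1 i s hs, mul_zero]
    rw [this]
    ring
  have hwQ : ∀ k (hk : k < P₂.length), w (P₂[k]).1 = 0 := by
    intro k
    induction k using Nat.strong_induction_on with
    | _ k ih =>
      intro hk
      obtain ⟨hs, j0, hj0⟩ := h6 _ (List.getElem_mem hk)
      have hinj : Function.Injective (P₂[k]).2 := by
        exact (mem_simp.1 hs).1.injective
      have hcoc := hwc _ hs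
      have hex : cobd (k := 2) w (P₂[k]).2 =
          ∑ j : Fin 4, (-1 : ℝ) ^ (j : ℕ) * w ((P₂[k]).2 ∘ j.succAbove) := rfl
      rw [hex, Finset.sum_eq_single j0] at hcoc
      · rw [hj0] at hcoc
        rcases mul_eq_zero.1 hcoc with h | h
        · exact absurd h (pow_ne_zero _ (by norm_num))
        · exact h
      · intro j _ hj
        have hne : (P₂[k]).2 ∘ j.succAbove ≠ (P₂[k]).1 := by
          intro h
          rw [← hj0] at h
          exact hj (succAbove_comp_inj hinj h)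
        rcases h7 k hk j hne with ⟨i, hi⟩ | ⟨a, ha, hi⟩ | ⟨l, hl, hi⟩
        · rw [← hi, hwT, mul_zero]
        · rw [← hi, hwP a ha, mul_zero]
        · rw [← hi, ih l hl _, mul_zero]
      · intro h
        exact absurd (Finset.mem_univ j0) h
  intro t ht
  have hwt : w t = 0 := by
    rcases h8 t ht with ⟨i, hi⟩ | ⟨a, ha, hi⟩ | ⟨a, ha, hi⟩
    · rw [← hi, hwT]
    · rw [← hi, hwP a ha]
    · obtain ⟨k, hk, hk'⟩ := List.mem_iff_getElem.1 ha
      rw [← hi, ← hk', hwQ k hk]
  rw [hw] at hwt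
  simp only at hwt
  linarith

end Pool.T4
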